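import Mathlib
import Pool.Agent.helper62.MF.T1

set_option autoImplicit false

/-!
# MP_141f81, Section 9: from the operators of letters to the almost ring

`U` a finite group of exponent two, `R` a ring with a size `r` (the number of elements of the range), `Λ` letters,
`π : Λ → U` values, `A : Λ → R` operators of letters, `L : U → R` almost additive with `A z ~ L (π z)`.
-/

namespace Pool.Agent.helper63.MF

open Finset
open Pool.Agent.helper62.MF (Siz Nr)

/-! ### dense generating sets -/

section gen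

variable {H : Type*} [AddCommGroup H]

/-- elements of the closure are sums of lists -/
theorem exists_list (two : ∀ h : H, h + h = 0) {ι : Type*} (X : Finset ι) (f : ι → H) (h : H)
    (hh : h ∈ AddSubgroup.closure (f '' X)) : ∃ l : List ι, (∀ x ∈ l, x ∈ X) ∧ (l.map f).sum = h := by
  induction hh using AddSubgroup.closure_induction with
  | mem x hx =>
    obtain ⟨i, hi, rfl⟩ := hx
    exact ⟨[i], by simpa using hi, by simp⟩
  | zero => exact ⟨[], by simp, by simp⟩
  | add x y _ _ hx hy =>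
    obtain ⟨l, hl, rfl⟩ := hx
    obtain ⟨l', hl', rfl⟩ := hy
    refine ⟨l ++ l', ?_, by simp⟩
    intro z hz
    rcases List.mem_append.1 hz with hz | hz
    · exact hl z hz
    · exact hl' z hz
  | neg x _ hx =>
    obtain ⟨l, hl, rfl⟩ := hx
    refine ⟨l, hl, ?_⟩
    rw [eq_neg_iff_add_eq_zero]
    exact two _

theorem sum_mem_closure {ι : Type*} (X : Finset ι) (f : ι → H) (l : List ι) (hl : ∀ x ∈ l, x ∈ X) :
    (l.map f).sum ∈ AddSubgroup.closure (f '' X) := by
  apply AddSubgroup.list_sum_mem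
  intro y hy
  obtain ⟨x, hx, rfl⟩ := List.mem_map.1 hy
  exact AddSubgroup.subset_closure ⟨x, hl x hx, rfl⟩

/-- **short words**: a dense generating set generates in at most `3 C` steps -/
theorem exists_short [Finite H] (two : ∀ h : H, h + h = 0) {ι : Type*} [DecidableEq H] (X : Finset ι)
    (f : ι → H) (C : ℕ) (hd : Nat.card (AddSubgroup.closure (f '' X)) ≤ C * (X.image f).card) (h : H)
    (hh : h ∈ AddSubgroup.closure (f '' X)) :
    ∃ l : List ι, l.length ≤ 3 * C ∧ (∀ x ∈ l, x ∈ X) ∧ (l.map f).sum = h := by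
  classical
  have hex : ∃ k : ℕ, ∃ l : List ι, l.length = k ∧ (∀ x ∈ l, x ∈ X) ∧ (l.map f).sum = h := by
    obtain ⟨l, hl, hs⟩ := exists_list two X f h hh
    exact ⟨l.length, l, rfl, hl, hs⟩
  obtain ⟨l, hlen, hl, hs⟩ := Nat.find_spec hex
  have hmin : ∀ l' : List ι, (∀ x ∈ l', x ∈ X) → (l'.map f).sum = h → l.length ≤ l'.length := by
    intro l' h1 h2
    rw [hlen]
    exact Nat.find_min' hex ⟨l', rfl, h1, h2⟩
  refine ⟨l, ?_, hl, hs⟩
  by_contra hcon
  push Not at hcon
  -- the disjoint translates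
  set S : Finset H := X.image f with hS
  set p : ℕ → H := fun j => ((l.take (3 * j)).map f).sum with hp
  have hpmem : ∀ j, p j ∈ AddSubgroup.closure (f '' X) := fun j =>
    sum_mem_closure X f _ (fun x hx => hl x (List.mem_of_mem_take hx))
  have hdis : ∀ i j : ℕ, i < j → 3 * j ≤ l.length → ∀ s ∈ S, ∀ s' ∈ S, p i + s ≠ p j + s' := by
    intro i j hij hj s hs1 s' hs2 he
    rw [hS, mem_image] at hs1 hs2
    obtain ⟨x, hx, rfl⟩ := hs1
    obtain ⟨x', hx', rfl⟩ := hs2
    -- replace the middle part by two letters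
    have e1 : ((l.take (3 * i)).map f).sum + ((l.drop (3 * i)).map f).sum = h := by
      rw [← List.sum_append, ← List.map_append, List.take_append_drop, hs]
    have e2 : ((l.take (3 * j)).map f).sum + ((l.drop (3 * j)).map f).sum = h := by
      rw [← List.sum_append, ← List.map_append, List.take_append_drop, hs]
    have e3 : (((l.take (3 * i)) ++ (x :: x' :: l.drop (3 * j))).map f).sum = h := by
      rw [List.map_append, List.sum_append, List.map_cons, List.map_cons, List.sum_cons, List.sum_cons]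
      have he' : ((l.take (3 * i)).map f).sum + f x = ((l.take (3 * j)).map f).sum + f x' := he
      calc ((l.take (3 * i)).map f).sum + (f x + (f x' + ((l.drop (3 * j)).map f).sum))
          = (((l.take (3 * i)).map f).sum + f x) + f x' + ((l.drop (3 * j)).map f).sum := by abel
        _ = (((l.take (3 * j)).map f).sum + f x') + f x' + ((l.drop (3 * j)).map f).sum := by rw [he']
        _ = ((l.take (3 * j)).map f).sum + ((l.drop (3 * j)).map f).sum + (f x' + f x') := by abel
        _ = h := by rw [two, add_zero, e2]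
    have e4 := hmin _ (by
      intro z hz
      rcases List.mem_append.1 hz with hz | hz
      · exact hl z (List.mem_of_mem_take hz)
      · rcases List.mem_cons.1 hz with rfl | hz
        · exact hx
        · rcases List.mem_cons.1 hz with rfl | hz
          · exact hx'
          · exact hl z (List.mem_of_mem_drop hz)) e3
    rw [List.length_append, List.length_cons, List.length_cons, List.length_take, List.length_drop] at e4
    have : min (3 * i) l.length = 3 * i := min_eq_left (by omega)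
    omega
  have hinj : Set.InjOn (fun q : ℕ × H => p q.1 + q.2) ((range (C + 1) ×ˢ S : Finset (ℕ × H)) : Set (ℕ × H)) := by
    rintro ⟨i, s⟩ h1 ⟨j, s'⟩ h2 he
    rw [mem_coe, mem_product, mem_range] at h1 h2
    have he' : p i + s = p j + s' := he
    rcases lt_trichotomy i j with hij | hij | hij
    · exact absurd he' (hdis i j hij (by omega) s h1.2 s' h2.2)
    · subst hij
      exact Prod.ext rfl (add_left_cancel he')
    · exact absurd he'.symm (hdis j i hij (by omega) s' h2.2 s h1.2)
  have hcard : ((range (C + 1) ×ˢ S : Finset (ℕ × H)).image (fun q : ℕ × H => p q.1 + q.2)).card =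
      (C + 1) * S.card := by
    rw [Finset.card_image_of_injOn hinj, Finset.card_product, Finset.card_range]
  have hle : ((range (C + 1) ×ˢ S : Finset (ℕ × H)).image (fun q : ℕ × H => p q.1 + q.2)).card ≤
      Nat.card (AddSubgroup.closure (f '' X)) := by
    have h3 : (((range (C + 1) ×ˢ S : Finset (ℕ × H)).image (fun q : ℕ × H => p q.1 + q.2) : Finset H) :
        Set H) ⊆ (AddSubgroup.closure (f '' X) : Set H) := by
      intro y hy
      rw [mem_coe, mem_image] at hy
      obtain ⟨⟨i, s⟩, hq, rfl⟩ := hy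
      rw [mem_product] at hq
      have hs' : s ∈ X.image f := hq.2
      rw [mem_image] at hs'
      obtain ⟨x, hx, hxs⟩ := hs'
      refine AddSubgroup.add_mem _ (hpmem i) ?_
      rw [← hxs]
      exact AddSubgroup.subset_closure ⟨x, hx, rfl⟩
    have h4 := Set.ncard_le_ncard h3 (Set.toFinite _)
    rw [Set.ncard_coe_finset] at h4
    exact h4
  have hpos : 0 < S.card := by
    rcases Nat.eq_zero_or_pos S.card with h0 | h0
    · rw [hS] at h0
      rw [h0, mul_zero] at hd
      have : 0 < Nat.card (AddSubgroup.closure (f '' X)) := Nat.card_pos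
      omega
    · exact h0
  rw [hcard] at hle
  have h5 := hle.trans hd
  have h6 : (C + 1) * S.card ≤ C * S.card := h5
  nlinarith

end gen

/-! ### operators of words -/

section ops

variable {R : Type*} [Ring R] {r : R → ℕ} {U : Type*} [AddCommGroup U] {Λ : Type*}

/-- the list version of almost equality -/
theorem nlist (hr : Siz r) {C : ℕ} (x y : Λ → R) (l : List Λ) (h : ∀ z ∈ l, Nr r C (x z) (y z)) :
    Nr r (C ^ l.length) (l.map x).sum (l.map y).sum := by
  induction l with
  | nil => simp [Nr, hr.zero]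
  | cons a l ih =>
    rw [List.map_cons, List.map_cons, List.sum_cons, List.sum_cons, List.length_cons, pow_succ, mul_comm]
    exact hr.nadd (h a List.mem_cons_self) (ih (fun z hz => h z (List.mem_cons_of_mem _ hz)))

/-- almost additive maps on lists -/
theorem lsum (hr : Siz r) (hR : ∀ x : R, x + x = 0) {C : ℕ} (L : U → R)
    (hL : ∀ u v, r (L (u + v) + (L u + L v)) ≤ C) (π : Λ → U) (l : List Λ) :
    Nr r (C ^ (l.length + 1)) (L (l.map π).sum) (l.map fun z => L (π z)).sum := by
  have h0 : Nr r C (L 0) 0 := by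
    have h1 := hL 0 0
    rw [add_zero, hR, add_zero] at h1
    unfold Nr
    rw [add_zero]
    exact h1
  induction l with
  | nil => simpa using h0
  | cons a l ih =>
    rw [List.map_cons, List.map_cons, List.sum_cons, List.sum_cons, List.length_cons, pow_succ, mul_comm]
    have hC : 1 ≤ C := (hr.one _).trans (hL 0 0)
    have h1 : Nr r C (L (π a + (l.map π).sum)) (L (π a) + L (l.map π).sum) := hL _ _
    have h2 : Nr r (1 * C ^ (l.length + 1)) (L (π a) + L (l.map π).sum)
        (L (π a) + (l.map fun z => L (π z)).sum) := hr.nadd (hr.refl hR _) ih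
    have h3 := hr.trans hR h1 h2
    rw [one_mul] at h3
    exact h3

/-- `L` of a word and the operator of the word -/
theorem lword (hr : Siz r) (hR : ∀ x : R, x + x = 0) {C : ℕ} (L : U → R)
    (hL : ∀ u v, r (L (u + v) + (L u + L v)) ≤ C) (π : Λ → U) (A : Λ → R) (l : List Λ)
    (hA : ∀ z ∈ l, Nr r C (A z) (L (π z))) :
    Nr r (C ^ (2 * l.length + 1)) (L (l.map π).sum) (l.map A).sum := by
  have h1 := lsum hr hR L hL π l
  have h2 : Nr r (C ^ l.length) (l.map fun z => L (π z)).sum (l.map A).sum :=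
    nlist hr _ _ l (fun z hz => (hA z hz).symm)
  have h3 := hr.trans hR h1 h2
  rw [← pow_add] at h3
  rw [show 2 * l.length + 1 = l.length + 1 + l.length by ring]
  exact h3

theorem mul_list (F : R) (x : Λ → R) (l : List Λ) : F * (l.map x).sum = (l.map fun z => F * x z).sum := by
  induction l with
  | nil => simp
  | cons a l ih => rw [List.map_cons, List.map_cons, List.sum_cons, List.sum_cons, mul_add, ih]

theorem list_mul (F : R) (x : Λ → R) (l : List Λ) : (l.map x).sum * F = (l.map fun z => x z * F).sum := by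
  induction l with
  | nil => simp
  | cons a l ih => rw [List.map_cons, List.map_cons, List.sum_cons, List.sum_cons, add_mul, ih]

/-- the square of a sum -/
theorem sq_list (hr : Siz r) (hR : ∀ x : R, x + x = 0) {C : ℕ} (x : Λ → R) (l : List Λ)
    (h : ∀ z ∈ l, ∀ w ∈ l, Nr r C (x z * x w) (x w * x z)) :
    Nr r (C ^ (l.length * l.length)) ((l.map x).sum * (l.map x).sum) (l.map fun z => x z * x z).sum := by
  induction l with
  | nil => simp [Nr, hr.zero]
  | cons a l ih =>
    rw [List.map_cons, List.map_cons, List.sum_cons, List.sum_cons, List.length_cons]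
    have hC : 1 ≤ C := (hr.one _).trans (h a List.mem_cons_self a List.mem_cons_self)
    have ih' := ih (fun z hz w hw => h z (List.mem_cons_of_mem _ hz) w (List.mem_cons_of_mem _ hw))
    set S := (l.map x).sum with hS
    have h1 : Nr r (C ^ l.length) (x a * S) (S * x a) := by
      rw [hS, mul_list, list_mul]
      exact nlist hr _ _ l (fun z hz => h a List.mem_cons_self z (List.mem_cons_of_mem _ hz))
    have e : (x a + S) * (x a + S) + (x a * x a + (l.map fun z => x z * x z).sum) =
        (x a * S + S * x a) + (S * S + (l.map fun z => x z * x z).sum) := by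
      have h2 := hR (x a * x a)
      calc (x a + S) * (x a + S) + (x a * x a + (l.map fun z => x z * x z).sum)
          = (x a * x a + x a * x a) + (x a * S + S * x a) + (S * S + (l.map fun z => x z * x z).sum) := by
            noncomm_ring
        _ = _ := by rw [h2, zero_add]
    unfold Nr
    rw [e]
    refine (hr.add _ _).trans ?_
    have h3 := Nat.mul_le_mul h1 ih'
    refine h3.trans ?_
    rw [← pow_add]
    exact Nat.pow_le_pow_right hC (by nlinarith)

end ops

/-! ### labels -/

section labels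

variable {R : Type*} [Ring R] {r : R → ℕ} {U : Type*} [AddCommGroup U] {Λ : Type*}

/-- A label: `πd`, `Ad` value and operator of the derived letter, `Fm` the map of the values. -/
structure Lbl (r : R → ℕ) (C : ℕ) (π : Λ → U) (L : U → R) (X : Finset Λ) (πd : Λ → U) (Ad : Λ → R)
    (Fm : U → U) : Prop where
  mem : ∀ u ∈ AddSubgroup.closure (π '' X), (u, Fm u) ∈ AddSubgroup.closure ((fun z => (π z, πd z)) '' X)
  card : Nat.card (AddSubgroup.closure ((fun z => (π z, πd z)) '' (X : Set Λ))) ≤ C * (π '' X).ncard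
  op : ∀ z ∈ X, Nr r C (Ad z) (L (πd z))

theorem short_pair [Finite U] (two : ∀ u : U, u + u = 0) {C : ℕ} {π : Λ → U} {X : Finset Λ} {πd : Λ → U}
    (hc : Nat.card (AddSubgroup.closure ((fun z => (π z, πd z)) '' (X : Set Λ))) ≤ C * (π '' X).ncard) (u u' : U)
    (hu : (u, u') ∈ AddSubgroup.closure ((fun z => (π z, πd z)) '' X)) :
    ∃ l : List Λ, l.length ≤ 3 * C ∧ (∀ x ∈ l, x ∈ X) ∧ (l.map π).sum = u ∧ (l.map πd).sum = u' := by
  classical
  have hc : Nat.card (AddSubgroup.closure ((fun z => (π z, πd z)) '' (X : Set Λ))) ≤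
      C * (X.image fun z => (π z, πd z)).card := by
    refine hc.trans (Nat.mul_le_mul_left _ ?_)
    have e : (π '' (X : Set Λ)) = Prod.fst '' (((X.image fun z => (π z, πd z)) : Finset (U × U)) : Set (U × U)) := by
      rw [Finset.coe_image, Set.image_image]
    rw [e, ← Set.ncard_coe_finset]
    exact Set.ncard_image_le (Set.toFinite _)
  obtain ⟨l, h1, h2, h3⟩ := exists_short (H := U × U) (fun p => Prod.ext (two _) (two _)) X
    (fun z => (π z, πd z)) C hc _ hu
  refine ⟨l, h1, h2, ?_, ?_⟩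
  · have h4 := congrArg (AddMonoidHom.fst U U) h3
    rw [map_list_sum, List.map_map] at h4
    exact h4
  · have h4 := congrArg (AddMonoidHom.snd U U) h3
    rw [map_list_sum, List.map_map] at h4
    exact h4

variable [Finite U] (hr : Siz r) (hR : ∀ x : R, x + x = 0) (two : ∀ u : U, u + u = 0) {C : ℕ} {π : Λ → U}
  {A : Λ → R} {L : U → R} {X : Finset Λ} {πd : Λ → U} {Ad : Λ → R} {Fo : R} {Fm : U → U}

include hr hR two

/-- **rule for labels** -/
theorem Lbl.rule (h : Lbl r C π L X πd Ad Fm) (hL : ∀ u v, r (L (u + v) + (L u + L v)) ≤ C)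
    (hA : ∀ z ∈ X, Nr r C (A z) (L (π z))) (rel : ∀ z ∈ X, Nr r C (Fo * A z) (Ad z * Fo)) (u : U) (hu : u ∈ AddSubgroup.closure (π '' X)) :
    Nr r (C ^ (15 * C + 2)) (Fo * L u) (L (Fm u) * Fo) := by
  obtain ⟨l, h1, h2, h3, h4⟩ := short_pair two h.card u _ (h.mem u hu)
  have hC : 1 ≤ C := (hr.one _).trans (hL 0 0)
  have a1 := lword hr hR L hL π A l (fun z hz => hA z (h2 z hz))
  rw [h3] at a1
  have a2 := lword hr hR L hL πd Ad l (fun z hz => h.op z (h2 z hz))
  rw [h4] at a2
  have a3 : Nr r (C ^ l.length) (Fo * (l.map A).sum) ((l.map Ad).sum * Fo) := by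
    rw [mul_list, list_mul]
    exact nlist hr _ _ l (fun z hz => rel z (h2 z hz))
  have a4 := hr.trans hR (hr.nmul Fo a1) (hr.trans hR a3 (hr.nmul' Fo a2.symm))
  refine a4.mono ?_
  rw [← pow_add, ← pow_add]
  exact Nat.pow_le_pow_right hC (by omega)

/-- **rule for constants, left** -/
theorem Lbl.left (h : Lbl r C π L X πd Ad Fm) (hL : ∀ u v, r (L (u + v) + (L u + L v)) ≤ C)
    (hA : ∀ z ∈ X, Nr r C (A z) (L (π z))) (hl : ∀ z ∈ X, Nr r C (Ad z) (Fo * A z)) (u : U)
    (hu : u ∈ AddSubgroup.closure (π '' X)) : Nr r (C ^ (15 * C + 2)) (L (Fm u)) (Fo * L u) := by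
  obtain ⟨l, h1, h2, h3, h4⟩ := short_pair two h.card u _ (h.mem u hu)
  have hC : 1 ≤ C := (hr.one _).trans (hL 0 0)
  have a1 := lword hr hR L hL π A l (fun z hz => hA z (h2 z hz))
  rw [h3] at a1
  have a2 := lword hr hR L hL πd Ad l (fun z hz => h.op z (h2 z hz))
  rw [h4] at a2
  have a3 : Nr r (C ^ l.length) ((l.map Ad).sum) (Fo * (l.map A).sum) := by
    rw [mul_list]
    exact nlist hr _ _ l (fun z hz => hl z (h2 z hz))
  have a4 := hr.trans hR a2 (hr.trans hR a3 (hr.nmul Fo a1.symm))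
  refine a4.mono ?_
  rw [← pow_add, ← pow_add]
  exact Nat.pow_le_pow_right hC (by omega)

/-- **rule for constants, right** -/
theorem Lbl.right (h : Lbl r C π L X πd Ad Fm) (hL : ∀ u v, r (L (u + v) + (L u + L v)) ≤ C)
    (hA : ∀ z ∈ X, Nr r C (A z) (L (π z))) (hl : ∀ z ∈ X, Nr r C (Ad z) (A z * Fo)) (u : U)
    (hu : u ∈ AddSubgroup.closure (π '' X)) : Nr r (C ^ (15 * C + 2)) (L (Fm u)) (L u * Fo) := by
  obtain ⟨l, h1, h2, h3, h4⟩ := short_pair two h.card u _ (h.mem u hu)
  have hC : 1 ≤ C := (hr.one _).trans (hL 0 0)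
  have a1 := lword hr hR L hL π A l (fun z hz => hA z (h2 z hz))
  rw [h3] at a1
  have a2 := lword hr hR L hL πd Ad l (fun z hz => h.op z (h2 z hz))
  rw [h4] at a2
  have a3 : Nr r (C ^ l.length) ((l.map Ad).sum) ((l.map A).sum * Fo) := by
    rw [list_mul]
    exact nlist hr _ _ l (fun z hz => hl z (h2 z hz))
  have a4 := hr.trans hR a2 (hr.trans hR a3 (hr.nmul' Fo a1.symm))
  refine a4.mono ?_
  rw [← pow_add, ← pow_add]
  exact Nat.pow_le_pow_right hC (by omega)

/-- the values of a label are determined up to small elements -/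
theorem Lbl.ind (h : Lbl r C π L X πd Ad Fm) (hL : ∀ u v, r (L (u + v) + (L u + L v)) ≤ C)
    (hA : ∀ z ∈ X, Nr r C (A z) (L (π z))) (rel : ∀ z ∈ X, Nr r C (Fo * A z) (Ad z * Fo)) (hs : ∀ x : R, r x ≤ C * r (x * Fo)) (e : U)
    (he : (0, e) ∈ AddSubgroup.closure ((fun z => (π z, πd z)) '' X)) : r (L e) ≤ C ^ (15 * C + 4) := by
  obtain ⟨l, h1, h2, h3, h4⟩ := short_pair two h.card 0 e he
  have hC : 1 ≤ C := (hr.one _).trans (hL 0 0)
  have h0 : Nr r C (L 0) 0 := by
    have h1 := hL 0 0
    rw [add_zero, hR, add_zero] at h1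
    unfold Nr
    rw [add_zero]
    exact h1
  have a1 := lword hr hR L hL π A l (fun z hz => hA z (h2 z hz))
  rw [h3] at a1
  have a2 := lword hr hR L hL πd Ad l (fun z hz => h.op z (h2 z hz))
  rw [h4] at a2
  have a3 : Nr r (C ^ l.length) (Fo * (l.map A).sum) ((l.map Ad).sum * Fo) := by
    rw [mul_list, list_mul]
    exact nlist hr _ _ l (fun z hz => rel z (h2 z hz))
  have a4 := hr.trans hR (hr.nmul' Fo a2) (hr.trans hR a3.symm (hr.trans hR (hr.nmul Fo a1.symm) (hr.nmul Fo h0)))
  rw [mul_zero] at a4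
  unfold Nr at a4
  rw [add_zero] at a4
  refine (hs _).trans ((Nat.mul_le_mul_left C a4).trans ?_)
  have e1 : C * (C ^ (2 * l.length + 1) * (C ^ l.length * (C ^ (2 * l.length + 1) * C))) =
      C ^ (5 * l.length + 4) := by ring
  rw [e1]
  exact Nat.pow_le_pow_right hC (by omega)

/-- the value of a label at a generator -/
theorem Lbl.val (h : Lbl r C π L X πd Ad Fm) (hL : ∀ u v, r (L (u + v) + (L u + L v)) ≤ C)
    (hA : ∀ z ∈ X, Nr r C (A z) (L (π z))) (rel : ∀ z ∈ X, Nr r C (Fo * A z) (Ad z * Fo)) (hs : ∀ x : R, r x ≤ C * r (x * Fo)) (z : Λ) (hz : z ∈ X) :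
    Nr r (C ^ (15 * C + 6)) (L (Fm (π z))) (Ad z) := by
  have hC : 1 ≤ C := (hr.one _).trans (hL 0 0)
  have h1 : (0, Fm (π z) + πd z) ∈ AddSubgroup.closure ((fun z => (π z, πd z)) '' (X : Set Λ)) := by
    have h2 := h.mem (π z) (AddSubgroup.subset_closure ⟨z, hz, rfl⟩)
    have h3 : (π z, πd z) ∈ AddSubgroup.closure ((fun z => (π z, πd z)) '' (X : Set Λ)) :=
      AddSubgroup.subset_closure ⟨z, hz, rfl⟩
    have h4 := AddSubgroup.add_mem _ h2 h3
    rw [Prod.mk_add_mk, two] at h4
    exact h4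
  have h2 := h.ind hr hR two hL hA rel hs _ h1
  have h3 : Nr r (C * C ^ (15 * C + 4)) (L (Fm (π z))) (L (πd z)) := by
    unfold Nr
    have e : L (Fm (π z)) + L (πd z) = (L (Fm (π z) + πd z) + (L (Fm (π z)) + L (πd z))) + L (Fm (π z) + πd z) := by
      have := hR (L (Fm (π z) + πd z))
      calc L (Fm (π z)) + L (πd z) = (L (Fm (π z) + πd z) + L (Fm (π z) + πd z)) + (L (Fm (π z)) + L (πd z)) := by
            rw [this, zero_add]
        _ = _ := by abel
    rw [e]
    exact (hr.add _ _).trans (Nat.mul_le_mul (hL _ _) h2)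
  refine (hr.trans hR h3 (h.op z hz).symm).mono (le_of_eq ?_)
  ring

end labels

/-! ### products -/

section prods

variable {R : Type*} [Ring R] {r : R → ℕ} {U : Type*} [AddCommGroup U] {Λ : Type*}

theorem index_closure_le [Finite U] {C : ℕ} (π : Λ → U) (X : Finset Λ) (h : Nat.card U ≤ C * (π '' X).ncard) :
    (AddSubgroup.closure (π '' (X : Set Λ))).index ≤ C := by
  have h1 := AddSubgroup.card_mul_index (AddSubgroup.closure (π '' (X : Set Λ)))
  have h2 : (π '' (X : Set Λ)).ncard ≤ Nat.card (AddSubgroup.closure (π '' (X : Set Λ))) :=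
    Set.ncard_le_ncard AddSubgroup.subset_closure (Set.toFinite _)
  have h3 : 0 < Nat.card (AddSubgroup.closure (π '' (X : Set Λ))) := Nat.card_pos
  have h4 : Nat.card (AddSubgroup.closure (π '' (X : Set Λ))) *
      (AddSubgroup.closure (π '' (X : Set Λ))).index ≤ Nat.card (AddSubgroup.closure (π '' (X : Set Λ))) * C := by
    rw [h1]
    calc Nat.card U ≤ C * (π '' (X : Set Λ)).ncard := h
      _ ≤ C * Nat.card (AddSubgroup.closure (π '' (X : Set Λ))) := Nat.mul_le_mul_left _ h2
      _ = _ := mul_comm _ _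
  exact Nat.le_of_mul_le_mul_left h4 h3

theorem short_of_dens [Finite U] (two : ∀ u : U, u + u = 0) {C : ℕ} (π : Λ → U) (X : Finset Λ)
    (h : Nat.card U ≤ C * (π '' X).ncard) (u : U) (hu : u ∈ AddSubgroup.closure (π '' X)) :
    ∃ l : List Λ, l.length ≤ 3 * C ∧ (∀ x ∈ l, x ∈ X) ∧ (l.map π).sum = u := by
  classical
  refine exists_short two X π C ?_ u hu
  have h1 : Nat.card (AddSubgroup.closure (π '' (X : Set Λ))) ≤ Nat.card U :=
    Nat.card_le_card_of_injective _ Subtype.val_injective
  refine h1.trans (h.trans (le_of_eq ?_))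
  rw [← Set.ncard_coe_finset, Finset.coe_image]

variable [Finite U] (hr : Siz r) (hR : ∀ x : R, x + x = 0) (two : ∀ u : U, u + u = 0) {C : ℕ} {L : U → R}

include hr hR two

/-- one operator `a` against words of partners `Y` -/
theorem prod_word (hL : ∀ u v, r (L (u + v) + (L u + L v)) ≤ C) (a : R) (Y : Finset Λ) (π : Λ → U) (A : Λ → R)
    (πm : Λ → U) (Am : Λ → R) (dens : Nat.card U ≤ C * (π '' Y).ncard) (op : ∀ w ∈ Y, Nr r C (A w) (L (π w)))
    (opm : ∀ w ∈ Y, Nr r C (Am w) (L (πm w))) (ml : ∀ w ∈ Y, Nr r C (a * A w) (Am w))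
    (mr : ∀ w ∈ Y, Nr r C (A w * a) (Am w)) (v : U) (hv : v ∈ AddSubgroup.closure (π '' (Y : Set Λ))) :
    ∃ x, Nr r (C ^ (15 * C + 2)) (a * L v) (L x) ∧ Nr r (C ^ (15 * C + 2)) (L v * a) (L x) := by
  have hC : 1 ≤ C := (hr.one _).trans (hL 0 0)
  obtain ⟨l, h1, h2, h3⟩ := short_of_dens two π Y dens v hv
  have a1 := lword hr hR L hL π A l (fun w hw => op w (h2 w hw))
  rw [h3] at a1
  have a2 := lword hr hR L hL πm Am l (fun w hw => opm w (h2 w hw))
  have a3 : Nr r (C ^ l.length) (a * (l.map A).sum) ((l.map Am).sum) := by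
    rw [mul_list]
    exact nlist hr _ _ l (fun w hw => ml w (h2 w hw))
  have a4 : Nr r (C ^ l.length) ((l.map A).sum * a) ((l.map Am).sum) := by
    rw [list_mul]
    exact nlist hr _ _ l (fun w hw => mr w (h2 w hw))
  refine ⟨(l.map πm).sum, ?_, ?_⟩
  · refine (hr.trans hR (hr.nmul a a1) (hr.trans hR a3 a2.symm)).mono ?_
    rw [← pow_add, ← pow_add]
    exact Nat.pow_le_pow_right hC (by omega)
  · refine (hr.trans hR (hr.nmul' a a1) (hr.trans hR a4 a2.symm)).mono ?_
    rw [← pow_add, ← pow_add]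
    exact Nat.pow_le_pow_right hC (by omega)

omit hr hR two [Finite U] in
theorem exists_inf (D : Λ → AddSubgroup U) (l : List Λ) (hi : ∀ z ∈ l, (D z).index ≤ C) :
    ∃ E : AddSubgroup U, E.index ≤ C ^ l.length ∧ ∀ z ∈ l, E ≤ D z := by
  induction l with
  | nil => exact ⟨⊤, by simp, by simp⟩
  | cons a l ih =>
    obtain ⟨E, hE1, hE2⟩ := ih (fun z hz => hi z (List.mem_cons_of_mem _ hz))
    refine ⟨D a ⊓ E, ?_, ?_⟩
    · refine (AddSubgroup.index_inf_le).trans ?_
      rw [List.length_cons, pow_succ, mul_comm]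
      exact Nat.mul_le_mul hE1 (hi a List.mem_cons_self)
    · intro z hz
      rcases List.mem_cons.1 hz with rfl | hz
      · exact inf_le_left
      · exact inf_le_right.trans (hE2 z hz)

/-- **domains and commutation** for words, from letters -/
theorem dom_of (hL : ∀ u v, r (L (u + v) + (L u + L v)) ≤ C) (X : Finset Λ) (π : Λ → U) (A : Λ → R)
    (hX : Nat.card U ≤ C * (π '' X).ncard) (hA : ∀ z ∈ X, Nr r C (A z) (L (π z))) (D : Λ → AddSubgroup U)
    (hD : ∀ z ∈ X, (D z).index ≤ C) (hx : ∀ z ∈ X, ∀ v ∈ D z, ∃ x, Nr r C (A z * L v) (L x) ∧ Nr r C (L v * A z) (L x))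
    (u : U) (hu : u ∈ AddSubgroup.closure (π '' X)) :
    ∃ E : AddSubgroup U, E.index ≤ C ^ (3 * C) ∧ ∀ v ∈ E,
      (∃ x, Nr r (C ^ (12 * C + 2)) (L u * L v) (L x)) ∧
      Nr r (C ^ (24 * C + 4)) (L u * L v) (L v * L u) := by
  classical
  have hC : 1 ≤ C := (hr.one _).trans (hL 0 0)
  obtain ⟨l, h1, h2, h3⟩ := short_of_dens two π X hX u hu
  obtain ⟨E, hE1, hE2⟩ := exists_inf (C := C) D l (fun z hz => hD z (h2 z hz))
  refine ⟨E, hE1.trans (Nat.pow_le_pow_right hC h1), ?_⟩
  intro v hv
  have hch : ∀ z : Λ, ∃ x, z ∈ l → Nr r C (A z * L v) (L x) ∧ Nr r C (L v * A z) (L x) := by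
    intro z
    by_cases hz : z ∈ l
    · obtain ⟨x, hx⟩ := hx z (h2 z hz) v (hE2 z hz hv)
      exact ⟨x, fun _ => hx⟩
    · exact ⟨0, fun hz' => absurd hz' hz⟩
  choose x hx using hch
  have a1 := lword hr hR L hL π A l (fun z hz => hA z (h2 z hz))
  rw [h3] at a1
  have b1 : Nr r (C ^ l.length) ((l.map A).sum * L v) ((l.map fun z => L (x z)).sum) := by
    rw [list_mul]
    exact nlist hr _ _ l (fun z hz => (hx z hz).1)
  have b2 : Nr r (C ^ l.length) (L v * (l.map A).sum) ((l.map fun z => L (x z)).sum) := by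
    rw [mul_list]
    exact nlist hr _ _ l (fun z hz => (hx z hz).2)
  have b3 := lsum hr hR L hL x l
  have hb : C ^ (2 * l.length + 1) * (C ^ l.length * C ^ (l.length + 1)) ≤ C ^ (12 * C + 2) := by
    rw [← pow_add, ← pow_add]
    exact Nat.pow_le_pow_right hC (by omega)
  have c1 : Nr r (C ^ (12 * C + 2)) (L u * L v) (L (l.map x).sum) :=
    (hr.trans hR (hr.nmul' (L v) a1) (hr.trans hR b1 b3.symm)).mono hb
  have c2 : Nr r (C ^ (12 * C + 2)) (L v * L u) (L (l.map x).sum) :=
    (hr.trans hR (hr.nmul (L v) a1) (hr.trans hR b2 b3.symm)).mono hb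
  refine ⟨⟨_, c1⟩, (hr.trans hR c1 c2.symm).mono ?_⟩
  rw [← pow_add]
  exact Nat.pow_le_pow_right hC (by omega)

end prods

end Pool.Agent.helper63.MF
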