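import Mathlib
import Pool.Agent.MF.LemT
import Pool.Agent.helper34.MF.CommW
import Pool.Agent.helper20.MF.Glue3

set_option autoImplicit false

/-!
# MP_141f81, Section 9: input and output of the step `rows → almost ring` (PRE)

`Λ` = rows (or letters); `S` the rows of `S2`; `thr z` the rows of `S2` with the same base letter `(a, z a)` as `z`.
`L`, `VV` from `exists_L`: every letter of `S2` has operator `~ L (value) + ν`, `ν ∈ VV`.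
-/

namespace Pool.Agent.helper63.MF

open Finset Helper34MF
open Pool.Agent.MF.LemT (nr kr Lab)
open Pool.Agent.helper20.MF (Op)

/-- the data: values and operators of the letters of the rows, the honest total sections `Θ ζ g s φ` of the big
correspondences `HΘ …` (`Hc M π ∅ L (sub S ∅ η) A`), the product correspondences `Hm z` (`Hc M π {a} L (sub S {a} z) (mul a)`) -/
structure Dat (U Λ : Type) [AddCommGroup U] where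
  S : Finset Λ
  thr : Λ → Finset Λ
  L : U → AddMonoid.End U
  VV : Finset (AddMonoid.End U)
  /-- values of the roles `a`, `b`, `mul a b` -/
  pa : Λ → U
  pb : Λ → U
  pm : Λ → U
  /-- operators of the letters of the roles `a`, `b`, `mul a b` -/
  Aa : Λ → AddMonoid.End U
  Ab : Λ → AddMonoid.End U
  Am : Λ → AddMonoid.End U
  /-- the labels (sections of the big correspondences) -/
  Θ : AddMonoid.End U
  ζ : AddMonoid.End U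
  g : AddMonoid.End U
  s : AddMonoid.End U
  φ : AddMonoid.End U
  HΘ : AddSubgroup (U × U)
  Hζ : AddSubgroup (U × U)
  Hg : AddSubgroup (U × U)
  Hs : AddSubgroup (U × U)
  Hφ : AddSubgroup (U × U)
  /-- values and operators of the roles `th a`, `ze a`, `g a`, `s a`, `sq a` -/
  pΘ : Λ → U
  pζ : Λ → U
  pg : Λ → U
  ps : Λ → U
  pφ : Λ → U
  AΘ : Λ → AddMonoid.End U
  Aζ : Λ → AddMonoid.End U
  Ag : Λ → AddMonoid.End U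
  As : Λ → AddMonoid.End U
  Aφ : Λ → AddMonoid.End U
  Hm : Λ → AddSubgroup (U × U)

section

variable {U Λ : Type} [AddCommGroup U] [Fintype U] [DecidableEq U] [DecidableEq Λ]

/-- `A z ~ L (p z) + ν` with a colour `ν ∈ VV` -/
def Colr (C : ℕ) (L : U → AddMonoid.End U) (VV : Finset (AddMonoid.End U)) (X : Finset Λ) (p : Λ → U)
    (A : Λ → AddMonoid.End U) : Prop :=
  ∀ z ∈ X, ∃ ν ∈ VV, nr (A z + (L (p z) + ν)) ≤ C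

/-- the facts about the rows -/
structure RowsIn (C : ℕ) (d : Dat U Λ) : Prop where
  two : ∀ u : U, u + u = 0
  ne : d.S.Nonempty
  add : ∀ u v : U, nr (d.L (u + v) + (d.L u + d.L v)) ≤ C
  cV : d.VV.card ≤ C
  /-- density of values for dense sets of rows -/
  densa : ∀ m : ℕ, ∀ P ⊆ d.S, d.S.card ≤ m * P.card → Fintype.card U ≤ m * C * (P.image d.pa).card
  thr_sub : ∀ z ∈ d.S, d.thr z ⊆ d.S
  densb : ∀ z ∈ d.S, ∀ m : ℕ, ∀ Q ⊆ d.thr z, (d.thr z).card ≤ m * Q.card →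
    Fintype.card U ≤ m * C * (Q.image d.pb).card
  -- colours
  cola : Colr C d.L d.VV d.S d.pa d.Aa
  colb : Colr C d.L d.VV d.S d.pb d.Ab
  colm : Colr C d.L d.VV d.S d.pm d.Am
  colΘ : Colr C d.L d.VV d.S d.pΘ d.AΘ
  colζ : Colr C d.L d.VV d.S d.pζ d.Aζ
  colg : Colr C d.L d.VV d.S d.pg d.Ag
  cols : Colr C d.L d.VV d.S d.ps d.As
  colφ : Colr C d.L d.VV d.S d.pφ d.Aφ
  -- products
  mab : ∀ z ∈ d.S, ∀ w ∈ d.thr z, nr (d.Aa z * d.Ab w + d.Am w) ≤ C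
  mba : ∀ z ∈ d.S, ∀ w ∈ d.thr z, nr (d.Ab w * d.Aa z + d.Am w) ≤ C
  Hm_card : ∀ z ∈ d.S, Nat.card (d.Hm z) ≤ C * Nat.card U
  Hm_mem : ∀ z ∈ d.S, ∀ w ∈ d.thr z, (d.pb w, d.pm w) ∈ d.Hm z
  -- the big sections
  opΘ : Op d.HΘ d.Θ C
  opζ : Op d.Hζ d.ζ C
  opg : Op d.Hg d.g C
  ops : Op d.Hs d.s C
  opφ : Op d.Hφ d.φ C
  memΘ : ∀ z ∈ d.S, (d.pa z, d.pΘ z) ∈ d.HΘ
  memζ : ∀ z ∈ d.S, (d.pa z, d.pζ z) ∈ d.Hζ
  memg : ∀ z ∈ d.S, (d.pa z, d.pg z) ∈ d.Hg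
  mems : ∀ z ∈ d.S, (d.pa z, d.ps z) ∈ d.Hs
  memφ : ∀ z ∈ d.S, (d.pa z, d.pφ z) ∈ d.Hφ
  kφ1 : Nat.card (kr (d.φ + 1)) ≤ C
  -- rules for letters
  lΘ : ∀ z ∈ d.S, nr (d.Θ * d.Aa z + d.AΘ z) ≤ C
  rΘ : ∀ z ∈ d.S, nr (d.Aa z * d.Θ + d.AΘ z) ≤ C
  lζ : ∀ z ∈ d.S, nr (d.ζ * d.Aa z + d.Aζ z) ≤ C
  rg : ∀ z ∈ d.S, nr (d.g * d.Aa z + d.Ag z * d.g) ≤ C
  rs : ∀ z ∈ d.S, nr (d.s * d.Aa z + d.As z * d.s) ≤ C
  rφ : ∀ z ∈ d.S, nr (d.φ * d.Aa z + d.Aφ z * d.φ) ≤ C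
  sq : ∀ z ∈ d.S, nr (d.Aa z * d.Aa z + d.Aφ z) ≤ C
  /-- relations between the labels: `g Θ ~ ζ Θ g`, `s Θ ^ 3 ~ Θ s`, `ζ Θ ~ Θ ζ`, `ζ ^ 2 + ζ + 1 ~ 0`, kernels of `g`, `s` -/
  lab : Lab C d.Θ d.ζ d.g d.s

/-- the output: `P` = popular rows, `W` of bounded index, new sections `Θ0 …` near `Θ …` -/
structure PreOut (K : ℕ) (d : Dat U Λ) (P : Finset Λ) (W : AddSubgroup U) (Θ0 ζ0 g0 s0 φ0 : AddMonoid.End U) :
    Prop where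
  sub : P ⊆ d.S
  card : d.S.card ≤ K * P.card
  letters : Letters K Θ0 ζ0 g0 s0 φ0 d.L W (fun z : {z // z ∈ P} => d.pa z.1) (fun z => d.Aa z.1)
  kφ : Nat.card (kr φ0) ≤ K
  kφ1 : Nat.card (kr (φ0 + 1)) ≤ K
  kζ : Nat.card (kr ζ0) ≤ K
  hφ : ∀ u ∈ W, nr (φ0 * d.L u + d.L (φ0 u) * φ0) ≤ K
  hg : ∀ u ∈ W, nr (g0 * d.L u + d.L (g0 u) * g0) ≤ K
  hs : ∀ u ∈ W, nr (s0 * d.L u + d.L (s0 u) * s0) ≤ K
  hΘ : ∀ u ∈ W, nr (Θ0 * d.L u + d.L (Θ0 u)) ≤ K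
  hζ : ∀ u ∈ W, nr (ζ0 * d.L u + d.L (ζ0 u)) ≤ K
  nΘ : nr (Θ0 + d.Θ) ≤ K
  nζ : nr (ζ0 + d.ζ) ≤ K
  ng : nr (g0 + d.g) ≤ K
  ns : nr (s0 + d.s) ≤ K
  nφ : nr (φ0 + d.φ) ≤ K
  fφ : ∃ E : Finset U, E.card ≤ K ∧ ∀ z ∈ P, φ0 (d.pa z) + d.pφ z ∈ E
  /-- for `dom_W` (helper34) -/
  dom : ∀ z ∈ P, ∃ (D : AddSubgroup U) (f : AddMonoid.End U), D.index ≤ K ∧
    ∀ v ∈ D, nr (d.Aa z * d.L v + d.L (f v)) ≤ K

end

/-- **PRE.** -/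
def StmtPre : Prop := ∀ C : ℕ, ∃ K : ℕ, 1 ≤ K ∧ ∀ (U Λ : Type) [AddCommGroup U] [Fintype U] [DecidableEq U]
  [DecidableEq Λ] (d : Dat U Λ), RowsIn C d →
  ∃ (P : Finset Λ) (W : AddSubgroup U) (Θ0 ζ0 g0 s0 φ0 : AddMonoid.End U), PreOut K d P W Θ0 ζ0 g0 s0 φ0

end Pool.Agent.helper63.MF
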