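import Mathlib
import Pool.Agent.helper63.MF.Pre
import Pool.Agent.helper63.MF.PreIn

set_option autoImplicit false
set_option linter.unusedSectionVars false
set_option linter.unusedVariables false

/-!
# MP_141f81, Section 9: proof of `StmtPre`
-/

namespace Pool.Agent.helper63.MF

open Finset Helper34MF
open Pool.Agent.MF.LemT (nr kr Lab)
open Pool.Agent.helper20.MF (Op)
open Pool.Agent.helper62.MF (Siz Nr)

/-- sums of two letters -/
def P2 {Λ G : Type} [Add G] (p : Λ → G) : Λ × Λ → G := fun q => p q.1 + p q.2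

section

variable {U : Type} [AddCommGroup U] [Finite U]

theorem siz_nr : Siz (fun f : AddMonoid.End U => nr f) :=
  ⟨fun x => Pool.Agent.MF.LemT.nr_pos x, Pool.Agent.MF.LemT.nr_zero, Pool.Agent.MF.LemT.nr_add,
    fun x y => Pool.Agent.MF.LemT.nr_mul_right x y, fun x y => Pool.Agent.MF.LemT.nr_mul_left x y⟩

theorem nr_le_mul {C : ℕ} (F : AddMonoid.End U) (hF : Nat.card (kr F) ≤ C) (x : AddMonoid.End U) :
    nr x ≤ C * nr (x * F) := by
  have h1 := card_range_le_index (AddMonoidHom.range F) x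
  have h2 : (AddMonoidHom.range F).index = Nat.card (kr F) := by
    have a1 := card_ker_range F
    have a2 := AddSubgroup.card_mul_index (AddMonoidHom.range F)
    have a3 : 0 < Nat.card (AddMonoidHom.range F) := Nat.card_pos
    have a4 : Nat.card (AddMonoidHom.range F) * (AddMonoidHom.range F).index =
        Nat.card (AddMonoidHom.range F) * Nat.card (kr F) := by
      rw [a2, ← a1, mul_comm]
      rfl
    exact Nat.eq_of_mul_eq_mul_left a3 a4
  have h3 : (AddMonoidHom.range F).map x = AddMonoidHom.range (x * F) := by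
    ext u
    constructor
    · rintro ⟨_, ⟨v, rfl⟩, rfl⟩
      exact ⟨v, rfl⟩
    · rintro ⟨v, rfl⟩
      exact ⟨F v, ⟨v, rfl⟩, rfl⟩
  unfold nr
  rw [h2, h3] at h1
  exact h1.trans (Nat.mul_le_mul_right _ hF)

end

section

variable {Λ : Type} [DecidableEq Λ]

/-- pigeonhole -/
theorem pop {ι : Type} [DecidableEq ι] (S : Finset Λ) (c : Λ → ι) (V : Finset ι) (hS : S.Nonempty)
    (hc : ∀ z ∈ S, c z ∈ V) : ∃ c0 ∈ V, S.card ≤ V.card * (S.filter fun z => c z = c0).card := by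
  have hV : V.Nonempty := by
    obtain ⟨z, hz⟩ := hS
    exact ⟨_, hc z hz⟩
  by_contra hcon
  push Not at hcon
  have h1 := Finset.card_eq_sum_card_fiberwise (f := c) (s := S) (t := V) hc
  have h2 : V.card * S.card < V.card * S.card := by
    conv_lhs => rw [h1, Finset.mul_sum]
    calc ∑ i ∈ V, V.card * (S.filter fun z => c z = i).card < ∑ _i ∈ V, S.card :=
          Finset.sum_lt_sum_of_nonempty hV (fun i hi => hcon i hi)
      _ = V.card * S.card := by rw [Finset.sum_const, smul_eq_mul]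
  exact lt_irrefl _ h2

/-- pigeonhole for several colourings -/
theorem popk {E : Type} {k : ℕ} (S : Finset Λ) (c : Fin k → Λ → E) (V : Finset E) (hS : S.Nonempty)
    (hc : ∀ i, ∀ z ∈ S, c i z ∈ V) : ∃ P ⊆ S, S.card ≤ V.card ^ k * P.card ∧
      ∀ i, ∀ z ∈ P, ∀ z' ∈ P, c i z = c i z' := by
  classical
  obtain ⟨c0, -, h1⟩ := pop S (fun z i => c i z) (Fintype.piFinset fun _ : Fin k => V) hS (by
    intro z hz
    rw [Fintype.mem_piFinset]
    exact fun i => hc i z hz)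
  refine ⟨S.filter fun z => (fun i => c i z) = c0, Finset.filter_subset _ _, ?_, ?_⟩
  · rw [Fintype.card_piFinset_const] at h1
    exact h1
  · intro i z hz z' hz'
    have h2 := congrFun (mem_filter.1 hz).2 i
    have h3 := congrFun (mem_filter.1 hz').2 i
    exact h2.trans h3.symm

end

section

variable {U Λ : Type} [AddCommGroup U] [Fintype U] [DecidableEq U] [DecidableEq Λ]

theorem Colr.fn {C : ℕ} {L : U → AddMonoid.End U} {VV : Finset (AddMonoid.End U)} {X : Finset Λ} {p : Λ → U}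
    {A : Λ → AddMonoid.End U} (h : Colr C L VV X p A) :
    ∃ ν : Λ → AddMonoid.End U, ∀ z ∈ X, ν z ∈ VV ∧ nr (A z + (L (p z) + ν z)) ≤ C := by
  classical
  refine ⟨fun z => if hz : z ∈ X then (h z hz).choose else 0, ?_⟩
  intro z hz
  simp only [hz, dif_pos]
  exact (h z hz).choose_spec

/-- two letters of one colour -/
theorem two_let (two : ∀ u : U, u + u = 0) {L : U → AddMonoid.End U} {C : ℕ}
    (rL : ∀ u v : U, nr (L (u + v) + (L u + L v)) ≤ C)
    {A A' V V' : AddMonoid.End U} {p p' : U} (hV : V = V') (h : nr (A + (L p + V)) ≤ C)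
    (h' : nr (A' + (L p' + V')) ≤ C) : nr (A + A' + L (p + p')) ≤ C ^ 3 := by
  subst hV
  have e : A + A' + L (p + p') = (A + (L p + V)) + (A' + (L p' + V)) + (L (p + p') + (L p + L p')) := by
    have e1 := Pool.Agent.MF.LemT.add_self two (L p)
    have e2 := Pool.Agent.MF.LemT.add_self two (L p')
    have e3 := Pool.Agent.MF.LemT.add_self two V
    calc A + A' + L (p + p') = A + A' + L (p + p') + (0 + 0 + 0) := by abel
      _ = A + A' + L (p + p') + ((L p + L p) + (L p' + L p') + (V + V)) := by rw [e1, e2, e3]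
      _ = _ := by abel
  rw [e]
  refine ((Pool.Agent.MF.LemT.nr_add _ _).trans (Nat.mul_le_mul ((Pool.Agent.MF.LemT.nr_add _ _).trans
    (Nat.mul_le_mul h h')) (rL p p'))).trans (le_of_eq ?_)
  ring

theorem dens2 {m : ℕ} (X : Finset Λ) (p : Λ → U) (h : Fintype.card U ≤ m * (X.image p).card) :
    Nat.card U ≤ m * (P2 p '' ((X ×ˢ X : Finset (Λ × Λ)) : Set (Λ × Λ))).ncard := by
  have hpos : 0 < (X.image p).card := by
    have h1 : 0 < Fintype.card U := Fintype.card_pos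
    rcases Nat.eq_zero_or_pos (X.image p).card with h0 | h0
    · rw [h0, mul_zero] at h
      omega
    · exact h0
  obtain ⟨u0, hu0⟩ := Finset.card_pos.1 hpos
  obtain ⟨z0, hz0, -⟩ := mem_image.1 hu0
  rw [Nat.card_eq_fintype_card]
  refine h.trans (Nat.mul_le_mul_left _ ?_)
  have h2 : (fun v => p z0 + v) '' ((X.image p : Finset U) : Set U) ⊆
      P2 p '' ((X ×ˢ X : Finset (Λ × Λ)) : Set (Λ × Λ)) := by
    rintro _ ⟨v, hv, rfl⟩
    rw [mem_coe, mem_image] at hv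
    obtain ⟨z, hz, rfl⟩ := hv
    refine ⟨(z0, z), ?_, rfl⟩
    rw [mem_coe, mem_product]
    exact ⟨hz0, hz⟩
  have h3 := Set.ncard_le_ncard h2 (Set.toFinite _)
  rw [Set.ncard_image_of_injective _ (add_right_injective (p z0)), Set.ncard_coe_finset] at h3
  exact h3

/-- the section of the pairs of letters of one colour -/
theorem exists_lbl {C B m : ℕ} (two : ∀ u : U, u + u = 0) (X : Finset Λ) (p pd : Λ → U)
    (Ad : Λ → AddMonoid.End U) (L : U → AddMonoid.End U) (H : AddSubgroup (U × U))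
    (hH : Nat.card H ≤ C * Nat.card U) (hmem : ∀ z ∈ X, (p z, pd z) ∈ H)
    (hd : Nat.card U ≤ m * (P2 p '' ((X ×ˢ X : Finset (Λ × Λ)) : Set (Λ × Λ))).ncard)
    (hop : ∀ z ∈ X, ∀ z' ∈ X, nr (Ad z + Ad z' + L (pd z + pd z')) ≤ B) (hB : C * m ≤ B) :
    ∃ f : AddMonoid.End U, Lbl (fun x : AddMonoid.End U => nr x) B (P2 p) L (X ×ˢ X) (P2 pd) (P2 Ad) f ∧
      (∀ u ∈ AddSubgroup.closure (P2 p '' ((X ×ˢ X : Finset (Λ × Λ)) : Set (Λ × Λ))), (u, f u) ∈ H) := by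
  obtain ⟨G, hG⟩ : ∃ G : AddSubgroup (U × U), G = AddSubgroup.closure ((fun z => (P2 p z, P2 pd z)) ''
    ((X ×ˢ X : Finset (Λ × Λ)) : Set (Λ × Λ))) := ⟨_, rfl⟩
  obtain ⟨f, hf⟩ := exists_map two two G
  have hGH : G ≤ H := by
    rw [hG, AddSubgroup.closure_le]
    rintro _ ⟨⟨z, z'⟩, hz, rfl⟩
    rw [mem_coe, mem_product] at hz
    exact H.add_mem (hmem z hz.1) (hmem z' hz.2)
  have hpr : AddSubgroup.closure (P2 p '' ((X ×ˢ X : Finset (Λ × Λ)) : Set (Λ × Λ))) ≤ pr1 G := by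
    rw [AddSubgroup.closure_le]
    rintro _ ⟨z, hz, rfl⟩
    refine mem_pr1.2 ⟨P2 pd z, ?_⟩
    rw [hG]
    exact AddSubgroup.subset_closure ⟨z, hz, rfl⟩
  refine ⟨f, ⟨?_, ?_, ?_⟩, ?_⟩
  · intro u hu
    have h1 := hf u (hpr hu)
    rw [hG] at h1
    exact h1
  · rw [← hG]
    calc Nat.card G ≤ Nat.card H := Nat.card_le_card_of_injective _ (AddSubgroup.inclusion_injective hGH)
      _ ≤ C * Nat.card U := hH
      _ ≤ C * (m * (P2 p '' ((X ×ˢ X : Finset (Λ × Λ)) : Set (Λ × Λ))).ncard) := Nat.mul_le_mul_left _ hd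
      _ = (C * m) * (P2 p '' ((X ×ˢ X : Finset (Λ × Λ)) : Set (Λ × Λ))).ncard := by ring
      _ ≤ _ := Nat.mul_le_mul_right _ hB
  · rintro ⟨z, z'⟩ hz
    rw [mem_product] at hz
    exact hop z hz.1 z' hz.2
  · intro u hu
    exact hGH (hf u (hpr hu))

/-- `f0 = F` up to a bounded map -/
theorem near_of {C k : ℕ} (two : ∀ u : U, u + u = 0) {H : AddSubgroup (U × U)} {F f0 : AddMonoid.End U}
    (hF : Op H F C) (W : AddSubgroup U) (hW : W.index ≤ k) (h0 : ∀ u ∈ W, (u, f0 u) ∈ H) :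
    nr (f0 + F) ≤ k * C := by
  refine card_range_le W (f0 + F) k C hW {y : U | ((0 : U), y) ∈ H} (Set.toFinite _) hF.sec.le ?_
  intro u hu
  have h1 := h0 u hu
  have h2 := hF.sec.mem u (mem_pr1.2 ⟨_, h1⟩)
  have h3 := H.add_mem h1 h2
  rw [Prod.mk_add_mk, two] at h3
  exact h3

end


section

variable {U Λ : Type} [AddCommGroup U] [Finite U]

theorem kr_near {c C : ℕ} (two : ∀ u : U, u + u = 0) {f g : AddMonoid.End U} (h : nr (f + g) ≤ c)
    (hg : Nat.card (kr g) ≤ C) : Nat.card (kr f) ≤ c * C := by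
  refine (Pool.Agent.MF.LemT.card_le_ker (kr f) (f + g) h).trans (Nat.mul_le_mul_left _ (le_trans ?_ hg))
  refine Pool.Agent.MF.LemT.card_mono ?_
  rintro u ⟨h1, h2⟩
  have h1' : f u = 0 := h1
  have h2' : (f + g) u = 0 := h2
  rw [Pool.Agent.MF.LemT.add_app, h1', zero_add] at h2'
  exact h2'

theorem mul_near {a b c d : AddMonoid.End U} {x y : ℕ} (two : ∀ u : U, u + u = 0) (h1 : nr (a + b) ≤ x)
    (h2 : nr (c + d) ≤ y) : nr (a * c + b * d) ≤ x * y :=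
  nr_mul_mul two h1 h2

/-- the rule for the new section -/
theorem rule_near {B : ℕ} (two : ∀ u : U, u + u = 0) {L : U → AddMonoid.End U}
    (rL : ∀ u v : U, nr (L (u + v) + (L u + L v)) ≤ B) {X : Finset Λ} {p pd : Λ → U} {A Ad : Λ → AddMonoid.End U}
    {f0 F : AddMonoid.End U} (h : Lbl (fun x : AddMonoid.End U => nr x) B p L X pd Ad f0)
    (hA : ∀ z ∈ X, nr (A z + L (p z)) ≤ B) (rel : ∀ z ∈ X, nr (F * A z + Ad z * F) ≤ B) (near : nr (f0 + F) ≤ B)
    (u : U) (hu : u ∈ AddSubgroup.closure (p '' (X : Set Λ))) :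
    nr (f0 * L u + L (f0 u) * f0) ≤ B ^ (15 * B + 4) := by
  have h1 := h.rule siz_nr (Pool.Agent.MF.LemT.add_self two) two rL hA rel u hu
  have h1' : nr (F * L u + L (f0 u) * F) ≤ B ^ (15 * B + 2) := h1
  have h2 : nr (f0 * L u + F * L u) ≤ B := by
    rw [← add_mul]
    exact (Pool.Agent.MF.LemT.nr_mul_right _ _).trans near
  have h3 : nr (L (f0 u) * F + L (f0 u) * f0) ≤ B := by
    rw [← mul_add, add_comm F f0]
    exact (Pool.Agent.MF.LemT.nr_mul_left _ _).trans near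
  refine (Pool.Agent.MF.LemT.tr two h2 (Pool.Agent.MF.LemT.tr two h1' h3)).trans (le_of_eq ?_)
  ring

/-- the rule for constants for the new section -/
theorem left_near {B : ℕ} (two : ∀ u : U, u + u = 0) {L : U → AddMonoid.End U}
    (rL : ∀ u v : U, nr (L (u + v) + (L u + L v)) ≤ B) {X : Finset Λ} {p pd : Λ → U} {A Ad : Λ → AddMonoid.End U}
    {f0 F : AddMonoid.End U} (h : Lbl (fun x : AddMonoid.End U => nr x) B p L X pd Ad f0)
    (hA : ∀ z ∈ X, nr (A z + L (p z)) ≤ B) (rel : ∀ z ∈ X, nr (Ad z + F * A z) ≤ B) (near : nr (f0 + F) ≤ B)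
    (u : U) (hu : u ∈ AddSubgroup.closure (p '' (X : Set Λ))) :
    nr (f0 * L u + L (f0 u)) ≤ B ^ (15 * B + 3) := by
  have h1 := h.left siz_nr (Pool.Agent.MF.LemT.add_self two) two rL hA rel u hu
  have h1' : nr (L (f0 u) + F * L u) ≤ B ^ (15 * B + 2) := h1
  have h2 : nr (f0 * L u + F * L u) ≤ B := by
    rw [← add_mul]
    exact (Pool.Agent.MF.LemT.nr_mul_right _ _).trans near
  rw [add_comm (L (f0 u))] at h1'
  refine (Pool.Agent.MF.LemT.tr two h2 h1').trans (le_of_eq ?_)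
  ring

/-- the new sections satisfy the relations -/
theorem lab_near {B : ℕ} {Θ ζ g s Θ0 ζ0 g0 s0 : AddMonoid.End U} (h : Lab B Θ ζ g s) (nΘ : nr (Θ0 + Θ) ≤ B)
    (nζ : nr (ζ0 + ζ) ≤ B) (ng : nr (g0 + g) ≤ B) (ns : nr (s0 + s) ≤ B) : Lab (B ^ 7) Θ0 ζ0 g0 s0 := by
  have two := h.two
  have hB : 1 ≤ B := h.Kpos
  have hp : ∀ {k : ℕ}, k ≤ 7 → B ^ k ≤ B ^ 7 := fun hk => Nat.pow_le_pow_right hB hk
  refine ⟨two, ?_, ?_, ?_, ?_, ?_, ?_⟩
  · refine (kr_near two ng h.kg).trans (le_trans (le_of_eq ?_) (hp (k := 2) (by norm_num)))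
    ring
  · refine (kr_near two ns h.ks).trans (le_trans (le_of_eq ?_) (hp (k := 2) (by norm_num)))
    ring
  · have a1 : nr (g0 * Θ0 + g * Θ) ≤ B * B := mul_near two ng nΘ
    have a2 : nr (ζ0 * Θ0 * g0 + ζ * Θ * g) ≤ B * B * B := mul_near two (mul_near two nζ nΘ) ng
    have a3 := h.gT
    rw [add_comm (ζ0 * Θ0 * g0)] at a2
    refine (Pool.Agent.MF.LemT.tr two a1 (Pool.Agent.MF.LemT.tr two a3 a2)).trans
      (le_trans (le_of_eq ?_) (hp (k := 6) (by norm_num)))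
    ring
  · have a1 : nr (s0 * (Θ0 * Θ0 * Θ0) + s * (Θ * Θ * Θ)) ≤ B * (B * B * B) :=
      mul_near two ns (mul_near two (mul_near two nΘ nΘ) nΘ)
    have a2 : nr (Θ0 * s0 + Θ * s) ≤ B * B := mul_near two nΘ ns
    have a3 := h.sT
    rw [add_comm (Θ0 * s0)] at a2
    refine (Pool.Agent.MF.LemT.tr two a1 (Pool.Agent.MF.LemT.tr two a3 a2)).trans
      (le_trans (le_of_eq ?_) (hp (k := 7) (by norm_num)))
    ring
  · have a1 : nr (ζ0 * Θ0 + ζ * Θ) ≤ B * B := mul_near two nζ nΘ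
    have a2 : nr (Θ0 * ζ0 + Θ * ζ) ≤ B * B := mul_near two nΘ nζ
    have a3 := h.zT
    rw [add_comm (Θ0 * ζ0)] at a2
    refine (Pool.Agent.MF.LemT.tr two a1 (Pool.Agent.MF.LemT.tr two a3 a2)).trans
      (le_trans (le_of_eq ?_) (hp (k := 5) (by norm_num)))
    ring
  · have a1 : nr (ζ0 * ζ0 + ζ * ζ) ≤ B * B := mul_near two nζ nζ
    have a3 := h.zz
    have e : ζ0 * ζ0 + ζ0 + 1 = (ζ0 * ζ0 + ζ * ζ) + (ζ0 + ζ) + (ζ * ζ + ζ + 1) := by
      have e1 := Pool.Agent.MF.LemT.add_self two (ζ * ζ)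
      have e2 := Pool.Agent.MF.LemT.add_self two ζ
      calc ζ0 * ζ0 + ζ0 + 1 = ζ0 * ζ0 + ζ0 + 1 + (0 + 0) := by abel
        _ = ζ0 * ζ0 + ζ0 + 1 + ((ζ * ζ + ζ * ζ) + (ζ + ζ)) := by rw [e1, e2]
        _ = _ := by abel
    rw [e]
    refine ((Pool.Agent.MF.LemT.nr_add _ _).trans (Nat.mul_le_mul ((Pool.Agent.MF.LemT.nr_add _ _).trans
      (Nat.mul_le_mul a1 nζ)) a3)).trans (le_trans (le_of_eq ?_) (hp (k := 4) (by norm_num)))
    ring

/-- both kernels -/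
theorem kr1_near {c C : ℕ} (two : ∀ u : U, u + u = 0) {f g : AddMonoid.End U} (h : nr (f + g) ≤ c)
    (hg : Nat.card (kr (g + 1)) ≤ C) : Nat.card (kr (f + 1)) ≤ c * C := by
  refine kr_near two (f := f + 1) (g := g + 1) ?_ hg
  have e : f + 1 + (g + 1) = f + g := by
    have e1 := Pool.Agent.MF.LemT.add_self two (1 : AddMonoid.End U)
    calc f + 1 + (g + 1) = f + g + (1 + 1) := by abel
      _ = f + g := by rw [e1, add_zero]
  rw [e]
  exact h

end

section main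

variable {U Λ : Type} [AddCommGroup U] [Fintype U] [DecidableEq U] [DecidableEq Λ]

theorem RowsIn.pos {C : ℕ} {d : Dat U Λ} (h : RowsIn C d) : 1 ≤ C :=
  (Pool.Agent.MF.LemT.nr_pos _).trans_le (h.add 0 0)

/-- sums of two almost equal pairs -/
theorem add_near {a b a' b' : AddMonoid.End U} {x y : ℕ} (h1 : nr (a + b) ≤ x) (h2 : nr (a' + b') ≤ y) :
    nr ((a + a') + (b + b')) ≤ x * y := by
  rw [show (a + a') + (b + b') = (a + b) + (a' + b') by abel]
  exact (Pool.Agent.MF.LemT.nr_add _ _).trans (Nat.mul_le_mul h1 h2)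

/-- per letter: domain and additive product map -/
theorem letter_dom {C B : ℕ} {d : Dat U Λ} (h : RowsIn C d) (hB : C ^ 4 ≤ B) (z : Λ) (hz : z ∈ d.S) :
    ∃ (D : AddSubgroup U) (f : AddMonoid.End U), D.index ≤ B ∧ ∀ v ∈ D,
      nr (d.Aa z * d.L v + d.L (f v)) ≤ B ^ (15 * B + 2) ∧
      nr (d.Aa z * d.L v + d.L v * d.Aa z) ≤ B ^ (30 * B + 4) := by
  have hC : 1 ≤ C := h.pos
  have two := h.two
  have p1 : C ≤ B := le_trans (by simpa using Nat.pow_le_pow_right hC (show 1 ≤ 4 by norm_num)) hB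
  have p2 : C * C ≤ B := le_trans (by simpa [pow_two] using Nat.pow_le_pow_right hC (show 2 ≤ 4 by norm_num)) hB
  have p3 : C ^ 3 ≤ B := le_trans (Nat.pow_le_pow_right hC (by norm_num)) hB
  obtain ⟨νb, hνb⟩ := h.colb.fn
  obtain ⟨νm, hνm⟩ := h.colm.fn
  have hTS := h.thr_sub z hz
  have hne : (d.thr z).Nonempty := by
    rcases (d.thr z).eq_empty_or_nonempty with h0 | h0
    · have h1 := h.densb z hz 0 ∅ (empty_subset _) (by rw [h0]; simp)
      have h2 : 0 < Fintype.card U := Fintype.card_pos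
      rw [zero_mul, zero_mul] at h1
      omega
    · exact h0
  obtain ⟨Y, hYT, hYcard, hYcol⟩ := popk (d.thr z) ![νb, νm] d.VV hne (by
    intro i w hw
    fin_cases i
    · exact (hνb w (hTS hw)).1
    · exact (hνm w (hTS hw)).1)
  have hYS : Y ⊆ d.S := hYT.trans hTS
  have e1 : ∀ w ∈ Y, ∀ w' ∈ Y, νb w = νb w' := fun w hw w' hw' => by simpa using hYcol 0 w hw w' hw'
  have e2 : ∀ w ∈ Y, ∀ w' ∈ Y, νm w = νm w' := fun w hw w' hw' => by simpa using hYcol 1 w hw w' hw'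
  have hd := dens2 (m := C ^ 2 * C) Y d.pb (h.densb z hz (C ^ 2) Y hYT
    (hYcard.trans (Nat.mul_le_mul_right _ (Nat.pow_le_pow_left h.cV 2))))
  have hop : ∀ w ∈ Y, ∀ w' ∈ Y, nr (d.Am w + d.Am w' + d.L (d.pm w + d.pm w')) ≤ B := fun w hw w' hw' =>
    (two_let two h.add (e2 w hw w' hw') (hνm w (hYS hw)).2 (hνm w' (hYS hw')).2).trans p3
  have hA : ∀ q ∈ Y ×ˢ Y, Nr (fun x : AddMonoid.End U => nr x) B (P2 d.Ab q) (d.L (P2 d.pb q)) := by
    rintro ⟨w, w'⟩ hq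
    rw [mem_product] at hq
    exact (two_let two h.add (e1 w hq.1 w' hq.2) (hνb w (hYS hq.1)).2 (hνb w' (hYS hq.2)).2).trans p3
  obtain ⟨f, hf, -⟩ := exists_lbl two Y d.pb d.pm d.Am d.L (d.Hm z) (h.Hm_card z hz)
    (fun w hw => h.Hm_mem z hz w (hYT hw)) hd hop (le_trans (le_of_eq (by ring)) hB)
  have rL : ∀ u v : U, nr (d.L (u + v) + (d.L u + d.L v)) ≤ B := fun u v => (h.add u v).trans p1
  refine ⟨AddSubgroup.closure (P2 d.pb '' ((Y ×ˢ Y : Finset (Λ × Λ)) : Set (Λ × Λ))), f, ?_, ?_⟩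
  · exact (index_closure_le (P2 d.pb) (Y ×ˢ Y) hd).trans (le_trans (le_of_eq (by ring)) p3)
  · intro v hv
    have h1 := hf.left siz_nr (Pool.Agent.MF.LemT.add_self two) two (Fo := d.Aa z) rL hA (by
      rintro ⟨w, w'⟩ hq
      rw [mem_product] at hq
      have c1 := h.mab z hz w (hYT hq.1)
      have c2 := h.mab z hz w' (hYT hq.2)
      rw [add_comm] at c1 c2
      have c3 := (add_near c1 c2).trans p2
      rw [← mul_add] at c3
      exact c3) v hv
    have h2 := hf.right siz_nr (Pool.Agent.MF.LemT.add_self two) two (Fo := d.Aa z) rL hA (by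
      rintro ⟨w, w'⟩ hq
      rw [mem_product] at hq
      have c1 := h.mba z hz w (hYT hq.1)
      have c2 := h.mba z hz w' (hYT hq.2)
      rw [add_comm] at c1 c2
      have c3 := (add_near c1 c2).trans p2
      rw [← add_mul] at c3
      exact c3) v hv
    have h1' : nr (d.Aa z * d.L v + d.L (f v)) ≤ B ^ (15 * B + 2) := h1.symm
    have h2' : nr (d.L (f v) + d.L v * d.Aa z) ≤ B ^ (15 * B + 2) := h2
    refine ⟨h1', (Pool.Agent.MF.LemT.tr two h1' h2').trans (le_of_eq ?_)⟩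
    rw [← pow_add]
    congr 1
    ring

/-- a label on the popular rows -/
theorem label_pop {C B : ℕ} {d : Dat U Λ} (h : RowsIn C d) (hB : C ^ 9 ≤ B) (P : Finset Λ) (hPS : P ⊆ d.S)
    (hPc : d.S.card ≤ C ^ 6 * P.card) (H : AddSubgroup (U × U)) (F : AddMonoid.End U) (pf : Λ → U)
    (Af : Λ → AddMonoid.End U) (op : Op H F C) (mem : ∀ z ∈ d.S, (d.pa z, pf z) ∈ H)
    (hop : ∀ z ∈ P, ∀ z' ∈ P, nr (Af z + Af z' + d.L (pf z + pf z')) ≤ C ^ 3) :
    ∃ f0 : AddMonoid.End U,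
      Lbl (fun x : AddMonoid.End U => nr x) B (P2 d.pa) d.L (P ×ˢ P) (P2 pf) (P2 Af) f0 ∧
      (∀ u ∈ AddSubgroup.closure (P2 d.pa '' ((P ×ˢ P : Finset (Λ × Λ)) : Set (Λ × Λ))), (u, f0 u) ∈ H) ∧
      nr (f0 + F) ≤ B ∧ Nat.card (kr f0) ≤ B * B ∧
      ∃ E : Finset U, E.card ≤ C ∧ ∀ z ∈ P, f0 (d.pa z) + pf z ∈ E := by
  have hC : 1 ≤ C := h.pos
  have two := h.two
  have p1 : C ≤ B := le_trans (by simpa using Nat.pow_le_pow_right hC (show 1 ≤ 9 by norm_num)) hB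
  have p3 : C ^ 3 ≤ B := le_trans (Nat.pow_le_pow_right hC (by norm_num)) hB
  have hd := dens2 (m := C ^ 6 * C) P d.pa (h.densa (C ^ 6) P hPS hPc)
  have hHc : Nat.card H ≤ C * Nat.card U := op.card
  obtain ⟨f, hf, hfH⟩ := exists_lbl two P d.pa pf Af d.L H hHc (fun z hz => mem z (hPS hz)) hd
    (fun z hz z' hz' => (hop z hz z' hz').trans p3)
    (le_trans (le_trans (le_of_eq (by ring)) (Nat.pow_le_pow_right hC (show 8 ≤ 9 by norm_num))) hB)
  have hW : (AddSubgroup.closure (P2 d.pa '' ((P ×ˢ P : Finset (Λ × Λ)) : Set (Λ × Λ)))).index ≤ C ^ 6 * C :=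
    index_closure_le (P2 d.pa) (P ×ˢ P) hd
  have hn : nr (f + F) ≤ B := by
    refine (near_of two op _ hW hfH).trans (le_trans (le_trans (le_of_eq ?_)
      (Nat.pow_le_pow_right hC (show 8 ≤ 9 by norm_num))) hB)
    ring
  refine ⟨f, hf, hfH, hn, ?_, ?_⟩
  · have hk : Nat.card (kr F) ≤ B := op.ker.trans p1
    exact kr_near two hn hk
  · classical
    rcases P.eq_empty_or_nonempty with h0 | ⟨z0, hz0⟩
    · refine ⟨∅, by simp, ?_⟩
      rw [h0]
      simp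
    refine ⟨(Finset.univ.filter fun y : U => ((0 : U), y) ∈ H).image fun y => (f (d.pa z0) + pf z0) + y, ?_, ?_⟩
    · refine Finset.card_image_le.trans ?_
      have h1 := op.sec.le
      have h2 : {y : U | ((0 : U), y) ∈ H} = ((Finset.univ.filter fun y : U => ((0 : U), y) ∈ H : Finset U) :
          Set U) := by
        ext y
        simp
      rw [h2, Set.ncard_coe_finset] at h1
      exact h1
    · intro z hz
      rw [mem_image]
      refine ⟨(f (d.pa z0) + pf z0) + (f (d.pa z) + pf z), ?_, ?_⟩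
      · rw [mem_filter]
        refine ⟨mem_univ _, ?_⟩
        have h1 := hfH (d.pa z0 + d.pa z) (AddSubgroup.subset_closure ⟨(z0, z), by
          rw [mem_coe, mem_product]
          exact ⟨hz0, hz⟩, rfl⟩)
        have h2 := H.add_mem h1 (H.add_mem (mem z0 (hPS hz0)) (mem z (hPS hz)))
        rw [Prod.mk_add_mk, Prod.mk_add_mk, two, map_add] at h2
        rw [show f (d.pa z0) + pf z0 + (f (d.pa z) + pf z) = f (d.pa z0) + f (d.pa z) + (pf z0 + pf z) by abel]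
        exact h2
      · show (f (d.pa z0) + pf z0) + ((f (d.pa z0) + pf z0) + (f (d.pa z) + pf z)) = _
        rw [← add_assoc, two, zero_add]

/-- **PRE.** -/
theorem pre_rows {C B K : ℕ} (hB : C ^ 9 = B) (hK : B ^ (30 * B + 20) ≤ K) {d : Dat U Λ} (h : RowsIn C d) :
    ∃ (P : Finset Λ) (W : AddSubgroup U) (Θ0 ζ0 g0 s0 φ0 : AddMonoid.End U), PreOut K d P W Θ0 ζ0 g0 s0 φ0 := by
  have hC : 1 ≤ C := h.pos
  have two := h.two
  have hB1 : 1 ≤ B := by
    rw [← hB]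
    exact Nat.one_le_pow _ _ hC
  have pw : ∀ {k : ℕ}, k ≤ 30 * B + 20 → B ^ k ≤ K := fun hk => (Nat.pow_le_pow_right hB1 hk).trans hK
  have q : ∀ {k : ℕ}, k ≤ 9 → C ^ k ≤ B := fun hk => by
    rw [← hB]
    exact Nat.pow_le_pow_right hC hk
  have p1 : C ≤ B := by simpa using q (k := 1) (by norm_num)
  have p2 : C * C ≤ B := by
    rw [← pow_two]
    exact q (by norm_num)
  have p3 : C ^ 3 ≤ B := q (by norm_num)
  have pB : B ≤ K := by simpa using pw (k := 1) (by omega)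
  have pBB : B * B ≤ K := by
    rw [← pow_two]
    exact pw (by omega)
  -- colours
  obtain ⟨νa, hνa⟩ := h.cola.fn
  obtain ⟨νΘ, hνΘ⟩ := h.colΘ.fn
  obtain ⟨νζ, hνζ⟩ := h.colζ.fn
  obtain ⟨νg, hνg⟩ := h.colg.fn
  obtain ⟨νs, hνs⟩ := h.cols.fn
  obtain ⟨νφ, hνφ⟩ := h.colφ.fn
  obtain ⟨P, hPS, hPcard, hcol⟩ := popk d.S ![νa, νΘ, νζ, νg, νs, νφ] d.VV h.ne (by
    intro i z hz
    fin_cases i
    · exact (hνa z hz).1
    · exact (hνΘ z hz).1
    · exact (hνζ z hz).1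
    · exact (hνg z hz).1
    · exact (hνs z hz).1
    · exact (hνφ z hz).1)
  have hPc : d.S.card ≤ C ^ 6 * P.card := hPcard.trans (Nat.mul_le_mul_right _ (Nat.pow_le_pow_left h.cV 6))
  have ea : ∀ z ∈ P, ∀ z' ∈ P, nr (d.Aa z + d.Aa z' + d.L (d.pa z + d.pa z')) ≤ C ^ 3 := fun z hz z' hz' =>
    two_let two h.add (by simpa using hcol 0 z hz z' hz') (hνa z (hPS hz)).2 (hνa z' (hPS hz')).2
  have eΘ : ∀ z ∈ P, ∀ z' ∈ P, nr (d.AΘ z + d.AΘ z' + d.L (d.pΘ z + d.pΘ z')) ≤ C ^ 3 := fun z hz z' hz' =>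
    two_let two h.add (by simpa using hcol 1 z hz z' hz') (hνΘ z (hPS hz)).2 (hνΘ z' (hPS hz')).2
  have eζ : ∀ z ∈ P, ∀ z' ∈ P, nr (d.Aζ z + d.Aζ z' + d.L (d.pζ z + d.pζ z')) ≤ C ^ 3 := fun z hz z' hz' =>
    two_let two h.add (by simpa using hcol 2 z hz z' hz') (hνζ z (hPS hz)).2 (hνζ z' (hPS hz')).2
  have eg : ∀ z ∈ P, ∀ z' ∈ P, nr (d.Ag z + d.Ag z' + d.L (d.pg z + d.pg z')) ≤ C ^ 3 := fun z hz z' hz' =>
    two_let two h.add (by simpa using hcol 3 z hz z' hz') (hνg z (hPS hz)).2 (hνg z' (hPS hz')).2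
  have es : ∀ z ∈ P, ∀ z' ∈ P, nr (d.As z + d.As z' + d.L (d.ps z + d.ps z')) ≤ C ^ 3 := fun z hz z' hz' =>
    two_let two h.add (by simpa using hcol 4 z hz z' hz') (hνs z (hPS hz)).2 (hνs z' (hPS hz')).2
  have eφ : ∀ z ∈ P, ∀ z' ∈ P, nr (d.Aφ z + d.Aφ z' + d.L (d.pφ z + d.pφ z')) ≤ C ^ 3 := fun z hz z' hz' =>
    two_let two h.add (by simpa using hcol 5 z hz z' hz') (hνφ z (hPS hz)).2 (hνφ z' (hPS hz')).2
  -- the new sections
  obtain ⟨Θ0, bΘ, -, nΘ, kΘ, -⟩ := label_pop h hB.le P hPS hPc d.HΘ d.Θ d.pΘ d.AΘ h.opΘ h.memΘ eΘ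
  obtain ⟨ζ0, bζ, -, nζ, kζ, -⟩ := label_pop h hB.le P hPS hPc d.Hζ d.ζ d.pζ d.Aζ h.opζ h.memζ eζ
  obtain ⟨g0, bg, -, ng, kg, -⟩ := label_pop h hB.le P hPS hPc d.Hg d.g d.pg d.Ag h.opg h.memg eg
  obtain ⟨s0, bs, -, ns, ks, -⟩ := label_pop h hB.le P hPS hPc d.Hs d.s d.ps d.As h.ops h.mems es
  obtain ⟨φ0, bφ, -, nφ, kφ, E, hE, hE'⟩ := label_pop h hB.le P hPS hPc d.Hφ d.φ d.pφ d.Aφ h.opφ h.memφ eφ
  have hd := dens2 (m := C ^ 6 * C) P d.pa (h.densa (C ^ 6) P hPS hPc)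
  obtain ⟨W, hWdef⟩ : ∃ W : AddSubgroup U, W = AddSubgroup.closure (P2 d.pa ''
    ((P ×ˢ P : Finset (Λ × Λ)) : Set (Λ × Λ))) := ⟨_, rfl⟩
  have hW : W.index ≤ C ^ 6 * C := by
    rw [hWdef]
    exact index_closure_le (P2 d.pa) (P ×ˢ P) hd
  have rL : ∀ u v : U, nr (d.L (u + v) + (d.L u + d.L v)) ≤ B := fun u v => (h.add u v).trans p1
  have hA : ∀ q ∈ P ×ˢ P, nr (P2 d.Aa q + d.L (P2 d.pa q)) ≤ B := by
    rintro ⟨z, z'⟩ hq
    rw [mem_product] at hq
    exact (ea z hq.1 z' hq.2).trans p3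
  -- rules for pairs
  have relp : ∀ (F : AddMonoid.End U) (Af : Λ → AddMonoid.End U), (∀ z ∈ d.S, nr (F * d.Aa z + Af z * F) ≤ C) →
      ∀ q ∈ P ×ˢ P, nr (F * P2 d.Aa q + P2 Af q * F) ≤ B := by
    rintro F Af hF ⟨z, z'⟩ hq
    rw [mem_product] at hq
    have c3 := (add_near (hF z (hPS hq.1)) (hF z' (hPS hq.2))).trans p2
    rw [← mul_add, ← add_mul] at c3
    exact c3
  have lftp : ∀ (F : AddMonoid.End U) (Af : Λ → AddMonoid.End U), (∀ z ∈ d.S, nr (F * d.Aa z + Af z) ≤ C) →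
      ∀ q ∈ P ×ˢ P, nr (P2 Af q + F * P2 d.Aa q) ≤ B := by
    rintro F Af hF ⟨z, z'⟩ hq
    rw [mem_product] at hq
    have c3 := (add_near (hF z (hPS hq.1)) (hF z' (hPS hq.2))).trans p2
    rw [← mul_add, add_comm] at c3
    exact c3
  have hlab : Lab (B ^ 7) Θ0 ζ0 g0 s0 := by
    have h1 : Lab B d.Θ d.ζ d.g d.s :=
      ⟨h.lab.two, h.lab.kg.trans p1, h.lab.ks.trans p1, h.lab.gT.trans p1, h.lab.sT.trans p1, h.lab.zT.trans p1,
        h.lab.zz.trans p1⟩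
    exact lab_near h1 nΘ nζ ng ns
  have hlab' : Lab K Θ0 ζ0 g0 s0 :=
    ⟨hlab.two, hlab.kg.trans (pw (by omega)), hlab.ks.trans (pw (by omega)), hlab.gT.trans (pw (by omega)),
      hlab.sT.trans (pw (by omega)), hlab.zT.trans (pw (by omega)), hlab.zz.trans (pw (by omega))⟩
  have hΘr : ∀ u ∈ W, nr (Θ0 * d.L u + d.L (Θ0 u)) ≤ K := fun u hu =>
    (left_near two rL bΘ hA (lftp d.Θ d.AΘ h.lΘ) nΘ u (hWdef ▸ hu)).trans (pw (by omega))
  refine ⟨P, W, Θ0, ζ0, g0, s0, φ0, ?_⟩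
  refine ⟨hPS, hPc.trans (Nat.mul_le_mul_right _ ((q (by norm_num)).trans pB)), ?_, kφ.trans pBB, ?_, kζ.trans pBB,
    ?_, ?_, ?_, hΘr, ?_, nΘ.trans pB, nζ.trans pB, ng.trans pB, ns.trans pB, nφ.trans pB, ⟨E, hE.trans (p1.trans pB), hE'⟩, ?_⟩
  · refine ⟨hlab', kΘ.trans pBB, fun u v => (rL u v).trans pB, ?_, hΘr, ?_, ?_, ?_, ?_, ?_⟩
    · exact hW.trans (le_trans (le_trans (le_of_eq (by ring)) (q (k := 7) (by norm_num))) pB)
    · rintro ⟨z, hz⟩ ⟨z', hz'⟩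
      exact (ea z hz z' hz').trans (p3.trans pB)
    · rintro ⟨z, hz⟩
      show nr (d.Aa z * Θ0 + Θ0 * d.Aa z) ≤ K
      have c1 : nr (d.Aa z * Θ0 + d.Aa z * d.Θ) ≤ B := by
        rw [← mul_add]
        exact (Pool.Agent.MF.LemT.nr_mul_left _ _).trans nΘ
      have c2 : nr (d.Θ * d.Aa z + Θ0 * d.Aa z) ≤ B := by
        rw [← add_mul, add_comm d.Θ]
        exact (Pool.Agent.MF.LemT.nr_mul_right _ _).trans nΘ
      have c3 := (h.rΘ z (hPS hz)).trans p1
      have c4 := (h.lΘ z (hPS hz)).trans p1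
      rw [add_comm] at c4
      refine (Pool.Agent.MF.LemT.tr two c1 (Pool.Agent.MF.LemT.tr two c3 (Pool.Agent.MF.LemT.tr two c4 c2))).trans
        (le_trans (le_of_eq ?_) (pw (k := 4) (by omega)))
      ring
    · rintro ⟨z, hz⟩
      obtain ⟨D, f, hD, hf⟩ := letter_dom h (q (k := 4) (by norm_num)) z (hPS hz)
      exact ⟨D, hD.trans pB, fun w hw => (hf w hw).2.trans (pw (by omega))⟩
    · rintro ⟨z, hz⟩ ⟨z', hz'⟩
      show nr (d.L (φ0 (d.pa z + d.pa z')) + (d.Aa z * d.Aa z + d.Aa z' * d.Aa z')) ≤ K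
      have c1 := bφ.val siz_nr (Pool.Agent.MF.LemT.add_self two) two (Fo := d.φ) rL hA (relp d.φ d.Aφ h.rφ)
        (nr_le_mul d.φ (h.opφ.ker.trans p1)) (z, z') (mem_product.2 ⟨hz, hz'⟩)
      have c1' : nr (d.L (φ0 (d.pa z + d.pa z')) + (d.Aφ z + d.Aφ z')) ≤ B ^ (15 * B + 6) := c1
      have c2 := (add_near (h.sq z (hPS hz)) (h.sq z' (hPS hz'))).trans p2
      rw [add_comm] at c2
      refine (Pool.Agent.MF.LemT.tr two c1' c2).trans (le_trans (le_of_eq ?_) (pw (k := 15 * B + 7) (by omega)))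
      ring
    · have c1 := h.densa (C ^ 6) P hPS hPc
      rw [Nat.card_eq_fintype_card]
      refine c1.trans ?_
      have c2 : (Set.range fun z : {z // z ∈ P} => d.pa z.1).ncard = (P.image d.pa).card := by
        rw [← Set.ncard_coe_finset]
        congr 1
        ext u
        simp
      rw [c2]
      refine Nat.mul_le_mul_right _ (le_trans (le_trans (le_of_eq (by ring)) (q (k := 7) (by norm_num))) pB)
  · refine (kr1_near two nφ (h.kφ1.trans p1)).trans pBB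
  · exact fun u hu => (rule_near two rL bφ hA (relp d.φ d.Aφ h.rφ) nφ u (hWdef ▸ hu)).trans (pw (by omega))
  · exact fun u hu => (rule_near two rL bg hA (relp d.g d.Ag h.rg) ng u (hWdef ▸ hu)).trans (pw (by omega))
  · exact fun u hu => (rule_near two rL bs hA (relp d.s d.As h.rs) ns u (hWdef ▸ hu)).trans (pw (by omega))
  · exact fun u hu => (left_near two rL bζ hA (lftp d.ζ d.Aζ h.lζ) nζ u (hWdef ▸ hu)).trans (pw (by omega))
  · intro z hz
    obtain ⟨D, f, hD, hf⟩ := letter_dom h (q (k := 4) (by norm_num)) z (hPS hz)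
    exact ⟨D, f, hD.trans pB, fun v hv => (hf v hv).1.trans (pw (by omega))⟩

end main

/-- **PRE** is proved. -/
theorem stmtPre : StmtPre := by
  intro C
  refine ⟨(C ^ 9) ^ (30 * C ^ 9 + 20) + 1, by omega, ?_⟩
  intro U Λ _ _ _ _ d h
  exact pre_rows rfl (Nat.le_succ _) h

end Pool.Agent.helper63.MF
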